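import Pool.Agent.H56.INS.Hit

/-!
# Modules CNF and CNX: confined paths and connectors
-/

set_option autoImplicit false

open MeasureTheory ProbabilityTheory
open scoped ENNReal

namespace Pool.Agent.H56.INS

open Pool.Agent.H95.INS Pool.Agent.H99.NS Pool.Agent.H22.LPP

theorem pf_CNF : T_CNF := by
  intro D ω hD hA40 hC s t g hs hnt ht hts hg hgs hgt hpar r hr1 hr2
  by_contra hlt
  push Not at hlt
  obtain ⟨a, ha⟩ : ∃ a, D.A = 2 * a := by
    obtain ⟨a, ha⟩ := hD.Ae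
    exact ⟨a, by omega⟩
  have hA2 : D.A / 2 = a := by omega
  rw [hA2] at hlt
  have hw1 := hD.w1
  have ha20 : 20 ≤ a := by omega
  have haw : D.w ≤ a * D.w := by nlinarith
  obtain ⟨m, hm1, hm2, hm3⟩ := hit hg (L := a * D.w) (hgs.trans haw) hr1 hr2 hlt
  have hA : (D.A : ℝ) = 2 * a := by exact_mod_cast ha
  have haR : (20:ℝ) ≤ a := by exact_mod_cast ha20
  have hwR : (1:ℝ) ≤ D.w := by exact_mod_cast hw1
  have hsub : ∀ x y : ℤ, |x| ≤ D.w → |y| = a * D.w → ((a : ℝ) - 1) * D.w ≤ |((y - x : ℤ) : ℝ)| := by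
    intro x y hx hy
    have h1 : (a - 1) * D.w ≤ |y - x| := by
      have h2 : |y| - |x| ≤ |y - x| := abs_sub_abs_le_abs_sub y x
      rw [hy] at h2
      linarith
    exact_mod_cast h1
  have h1 := two hD hC (s := s) (m := m) (t := t) hs hm1 (by omega) ht hg
    (hgs.trans (by rw [ha]; nlinarith)) (by rw [hm3, ha]; nlinarith) (L := ((a : ℝ) - 1) * D.w)
    (by nlinarith) (hsub _ _ hgs hm3)
    (by
      have h2 := hsub _ _ hgt hm3
      rw [← abs_neg, ← Int.cast_neg, neg_sub] at h2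
      exact h2)
  have hn : (1:ℝ) ≤ D.n := by exact_mod_cast hD.n1
  have hf := hD.f0
  have hsg := sg_pos hD.q0 hD.q1
  have htsR : ((t - s : ℤ) : ℝ) ≤ 4 * D.n := by exact_mod_cast hts
  have hntR : (D.n : ℝ) ≤ ((t - s : ℤ) : ℝ) := by exact_mod_cast hnt
  -- upper bound
  have e1 : ((a : ℝ) - 1) ^ 2 * D.f * (32 * 50 / 216) ≤
      (((a : ℝ) - 1) * D.w) ^ 2 * (4 / (((t - s : ℤ) : ℝ) + 16 * D.n / 50)) := by
    have e2 : ((a : ℝ) - 1) ^ 2 * D.f * (32 * 50 / 216) =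
        (((a : ℝ) - 1) * D.w) ^ 2 * (4 / (4 * (D.n : ℝ) + 16 * D.n / 50)) := by
      rw [mul_pow, hD.sc]
      field_simp
      ring
    rw [e2]
    refine mul_le_mul_of_nonneg_left ?_ (sq_nonneg _)
    exact div_le_div_of_nonneg_left (by norm_num) (by linarith) (by linarith)
  -- lower bound
  have e3 : mu D.q * ((t - s : ℤ) : ℝ) - 16 * sg D.q * D.f ≤ par D.q (s, g s) (t, g t) := by
    unfold par
    simp only
    have e4 : ((g t - g s : ℤ) : ℝ) ^ 2 ≤ (2 * D.w) ^ 2 := by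
      have e5 : |g t - g s| ≤ 2 * D.w := by
        rw [abs_le] at hgs hgt ⊢
        constructor <;> omega
      have e6 : |((g t - g s : ℤ) : ℝ)| ≤ 2 * D.w := by exact_mod_cast e5
      rw [← sq_abs ((g t - g s : ℤ) : ℝ)]
      exact pow_le_pow_left₀ (abs_nonneg _) e6 2
    have e7 : sg D.q / 2 * ((g t - g s : ℤ) : ℝ) ^ 2 / ((t - s : ℤ) : ℝ) ≤ 16 * sg D.q * D.f := by
      rw [div_le_iff₀ (by linarith)]
      calc sg D.q / 2 * ((g t - g s : ℤ) : ℝ) ^ 2 ≤ sg D.q / 2 * (2 * D.w) ^ 2 :=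
            mul_le_mul_of_nonneg_left e4 (by linarith)
        _ = 2 * sg D.q * (D.w : ℝ) ^ 2 := by ring
        _ = 16 * sg D.q * D.f * D.n := by rw [hD.sc]; ring
        _ ≤ 16 * sg D.q * D.f * ((t - s : ℤ) : ℝ) := mul_le_mul_of_nonneg_left hntR (by positivity)
    linarith
  have e8 := mul_le_mul_of_nonneg_left e1 (by linarith : 0 ≤ sg D.q / 2)
  have hY : 4 * D.Y * D.f ≤ sg D.q * D.A ^ 2 * D.f := mul_le_mul_of_nonneg_right hD.c4 hf.le
  have hH : D.H * D.f ≤ D.Y * D.f := mul_le_mul_of_nonneg_right hD.c3 hf.le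
  rw [hA] at hY
  have hsf : 0 < sg D.q * D.f := by positivity
  have e9 : sg D.q * D.f * (((a : ℝ) - 1) ^ 2 * (16 * 50 / 216)) ≤
      sg D.q * D.f * (16 + (2 + 1 / 1000) * (a : ℝ) ^ 2) := by
    have e10 : sg D.q / 2 * (((a : ℝ) - 1) ^ 2 * D.f * (32 * 50 / 216)) =
        sg D.q * D.f * (((a : ℝ) - 1) ^ 2 * (16 * 50 / 216)) := by ring
    rw [e10] at e8
    linarith
  have e11 := le_of_mul_le_mul_left e9 hsf
  nlinarith

theorem pf_CNX (h_CNF : T_CNF) : T_CNX := by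
  intro D ω hD hA40 hC hlow hwn
  have hn1 := hD.n1
  obtain ⟨c, hc⟩ := hD.ne
  have hw1 := hD.w1
  have h2w : 2 * D.w ≤ D.n := by omega
  have key : ∀ (s t x y : ℤ), ((s = -(4 * D.n) ∧ t = -(3 * D.n)) ∨ (s = -(2 * D.n) ∧ t = 2 * D.n) ∨
      (s = 3 * D.n ∧ t = 4 * D.n)) → |x| ≤ D.w → |y| ≤ D.w → Reach (s, x) (t, y) →
      CN D ω s t x y := by
    intro s t x y hst hx hy hr
    obtain ⟨g, ⟨hg1, hg2, hg3⟩, hg4, -⟩ := T_attained ω hr
    simp only at hg1 hg2 hg3 hg4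
    have h1 := hlow s t x y hst hx hy hr
    rw [hg4] at h1
    have h2 : Stay (D.A / 2 * D.w) s t g := by
      refine h_CNF D ω hD hA40 hC s t g ?_ ?_ ?_ ?_ hg1 (by rw [hg2]; exact hx)
        (by rw [hg3]; exact hy) (by rw [hg2, hg3]; exact h1)
      · rcases hst with h | h | h <;> omega
      · rcases hst with h | h | h <;> omega
      · rcases hst with h | h | h <;> omega
      · rcases hst with h | h | h <;> omega
    refine ⟨g, hg1, hg2, hg3, h2, ?_⟩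
    unfold Exc
    rw [hg2, hg3]
    linarith
  refine ⟨fun y hy he => ?_, fun y y' hy hy' he he' => ?_, fun y hy he => ?_⟩
  · refine key _ _ _ _ (Or.inl ⟨rfl, rfl⟩) (by simpa using (by omega : (0:ℤ) ≤ D.w)) hy ⟨?_, ?_⟩
    · simp only
      rw [abs_le] at hy ⊢
      constructor <;> omega
    · simp only
      obtain ⟨d, hd⟩ := he
      exact ⟨d - D.n, by omega⟩
  · refine key _ _ _ _ (Or.inr (Or.inl ⟨rfl, rfl⟩)) hy hy' ⟨?_, ?_⟩
    · simp only
      rw [abs_le] at hy hy' ⊢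
      constructor <;> omega
    · simp only
      obtain ⟨d, hd⟩ := he
      obtain ⟨d', hd'⟩ := he'
      exact ⟨2 * D.n + d' - d, by omega⟩
  · refine key _ _ _ _ (Or.inr (Or.inr ⟨rfl, rfl⟩)) hy (by simpa using (by omega : (0:ℤ) ≤ D.w)) ⟨?_, ?_⟩
    · simp only
      rw [abs_le] at hy ⊢
      constructor <;> omega
    · simp only
      obtain ⟨d, hd⟩ := he
      exact ⟨2 * D.n - d, by omega⟩

end Pool.Agent.H56.INS
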