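import Pool.Agent.H56.INS.Hit

/-!
# Module GST: the local geodesic stays in the box
-/

set_option autoImplicit false

open MeasureTheory ProbabilityTheory
open scoped ENNReal

namespace Pool.Agent.H56.INS

open Pool.Agent.H95.INS Pool.Agent.H99.NS Pool.Agent.H22.LPP

theorem pf_GST (h_LAM : B_LAM) : T_GST := by
  intro D ω hD hC hT r hr1 hr2
  by_contra hlt
  push Not at hlt
  have hn1 := hD.n1
  have hre : Reach (-(4 * D.n), 0) (4 * D.n, 0) := by
    refine ⟨?_, ?_⟩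
    · simp only [sub_self, abs_zero]
      omega
    · exact ⟨4 * D.n, by simp only; ring⟩
  obtain ⟨⟨hconn, hwt⟩, -⟩ := h_LAM ω _ _ hre
  set g := Lam ω (-(4 * D.n), 0) (4 * D.n, 0) with hgdef
  obtain ⟨hpath, hg0, hg1⟩ := hconn
  simp only at hpath hg0 hg1 hwt
  have hw1 := hD.w1
  have hA2 := hD.A2
  have hAw : 0 < D.A * D.w := by positivity
  obtain ⟨m, hm1, hm2, hm3⟩ := hit hpath (L := D.A * D.w) (by rw [hg0]; simpa using hAw.le) hr1 hr2 hlt
  have h1 := two hD hC (s := -(4 * D.n)) (m := m) (t := 4 * D.n) le_rfl hm1 (by omega) le_rfl hpath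
    (by rw [hg0, abs_zero]; nlinarith) (by rw [hm3]; nlinarith) (L := (D.A : ℝ) * D.w)
    (by exact_mod_cast hAw.le) (by rw [hg0, sub_zero]; exact_mod_cast hm3.ge)
    (by rw [hg1, zero_sub, Int.cast_neg, abs_neg]; exact_mod_cast hm3.ge)
  rw [hwt] at h1
  have hn : (1:ℝ) ≤ D.n := by exact_mod_cast hD.n1
  have hf := hD.f0
  have hsg := sg_pos hD.q0 hD.q1
  have e1 : ((4 * D.n - -(4 * D.n) : ℤ) : ℝ) = 8 * (D.n : ℝ) := by push_cast; ring
  rw [e1] at h1
  have e2 : ((D.A : ℝ) * D.w) ^ 2 * (4 / (8 * (D.n : ℝ) + 16 * D.n / 50)) =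
      (D.A : ℝ) ^ 2 * D.f * (32 * 50 / 416) := by
    rw [mul_pow, hD.sc]
    field_simp
    ring
  rw [e2] at h1
  have hA : (2:ℝ) ≤ D.A := by exact_mod_cast hD.A2
  have hY : 4 * D.Y * D.f ≤ sg D.q * D.A ^ 2 * D.f := mul_le_mul_of_nonneg_right hD.c4 hf.le
  have hpos : 0 < sg D.q * D.A ^ 2 * D.f := by positivity
  have h3 := hT.trans h1
  nlinarith

end Pool.Agent.H56.INS
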