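import Pool.Agent.H95.INS.Targets2

/-!
# Tools for the modules CNF, CNX, GST: hitting a level and the two piece bound
-/

set_option autoImplicit false

open MeasureTheory ProbabilityTheory
open scoped ENNReal

namespace Pool.Agent.H56.INS

open Pool.Agent.H95.INS Pool.Agent.H99.NS Pool.Agent.H22.LPP

/-- A path which reaches the level `L` attains it exactly. -/
theorem hit {s t : ℤ} {g : ℤ → ℤ} (hg : IsPath s t g) {L : ℤ} (hs : |g s| ≤ L) {r : ℤ} (h1 : s ≤ r)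
    (h2 : r ≤ t) (h3 : L ≤ |g r|) : ∃ m, s ≤ m ∧ m ≤ r ∧ |g m| = L := by
  induction r, h1 using Int.leInduction with
  | base => exact ⟨s, le_rfl, le_rfl, le_antisymm hs h3⟩
  | succ r hr ih =>
    by_cases h4 : L ≤ |g r|
    · obtain ⟨m, hm1, hm2, hm3⟩ := ih (by omega) h4
      exact ⟨m, hm1, by omega, hm3⟩
    · push Not at h4
      refine ⟨r + 1, by omega, le_rfl, le_antisymm ?_ h3⟩
      have h5 := hg r hr (by omega)
      rw [abs_lt] at h4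
      rw [abs_le]
      rcases h5 with h5 | h5 <;> constructor <;> omega

theorem sg_pos {q : ℝ} (h0 : 0 < q) (h1 : q < 1) : 0 < sg q := by
  unfold sg
  exact div_pos (Real.sqrt_pos.2 h0) (by linarith)

/-- The bound for a path with two long excursions. -/
theorem two {D : Dat} {ω : Env} (hD : D.Ok) (hC : CA D ω) {s m t : ℤ} {g : ℤ → ℤ}
    (hs : -(4 * D.n) ≤ s) (hsm : s ≤ m) (hmt : m ≤ t) (ht : t ≤ 4 * D.n) (hg : IsPath s t g)
    (hgs : |g s| ≤ 16 * D.A * D.w) (hgm : |g m| ≤ 16 * D.A * D.w) {L : ℝ} (hL : 0 ≤ L)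
    (h1 : L ≤ |((g m - g s : ℤ) : ℝ)|) (h2 : L ≤ |((g t - g m : ℤ) : ℝ)|) :
    wt ω s t g ≤ mu D.q * ((t - s : ℤ) : ℝ) -
      sg D.q / 2 * (L ^ 2 * (4 / (((t - s : ℤ) : ℝ) + 16 * D.n / 50))) + 2 * D.Y * D.f := by
  have e1 := hC s m g hs hsm (by omega) (fun r hr1 hr2 => hg r hr1 (by omega)) hgs
  have e2 := hC m t g (by omega) hmt ht (fun r hr1 hr2 => hg r (by omega) hr2) hgm
  rw [wt_add ω hsm hmt g]
  have hn : (1:ℝ) ≤ D.n := by exact_mod_cast hD.n1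
  have hsg := sg_pos hD.q0 hD.q1
  unfold sp at e1 e2
  have ht1 : (0:ℝ) ≤ ((m - s : ℤ) : ℝ) := by exact_mod_cast (by omega : (0:ℤ) ≤ m - s)
  have ht2 : (0:ℝ) ≤ ((t - m : ℤ) : ℝ) := by exact_mod_cast (by omega : (0:ℤ) ≤ t - m)
  have hts : ((t - s : ℤ) : ℝ) = ((m - s : ℤ) : ℝ) + ((t - m : ℤ) : ℝ) := by push_cast; ring
  set a := ((m - s : ℤ) : ℝ) + 8 * (D.n : ℝ) / 50 with ha
  set b := ((t - m : ℤ) : ℝ) + 8 * (D.n : ℝ) / 50 with hb
  have ha0 : 0 < a := by rw [ha]; linarith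
  have hb0 : 0 < b := by rw [hb]; linarith
  have hab : ((t - s : ℤ) : ℝ) + 16 * D.n / 50 = a + b := by rw [hts, ha, hb]; ring
  rw [hab]
  have q1 : L ^ 2 ≤ ((g m - g s : ℤ) : ℝ) ^ 2 := by
    rw [← sq_abs ((g m - g s : ℤ) : ℝ)]
    exact pow_le_pow_left₀ hL h1 2
  have q2 : L ^ 2 ≤ ((g t - g m : ℤ) : ℝ) ^ 2 := by
    rw [← sq_abs ((g t - g m : ℤ) : ℝ)]
    exact pow_le_pow_left₀ hL h2 2
  have q3 : L ^ 2 * (4 / (a + b)) ≤ ((g m - g s : ℤ) : ℝ) ^ 2 / a + ((g t - g m : ℤ) : ℝ) ^ 2 / b := by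
    have q4 : L ^ 2 / a + L ^ 2 / b ≤
        ((g m - g s : ℤ) : ℝ) ^ 2 / a + ((g t - g m : ℤ) : ℝ) ^ 2 / b :=
      add_le_add (div_le_div_of_nonneg_right q1 ha0.le) (div_le_div_of_nonneg_right q2 hb0.le)
    have q5 : 4 / (a + b) ≤ 1 / a + 1 / b := by
      rw [div_add_div _ _ ha0.ne' hb0.ne', div_le_div_iff₀ (by positivity) (by positivity)]
      nlinarith [sq_nonneg (a - b)]
    calc L ^ 2 * (4 / (a + b)) ≤ L ^ 2 * (1 / a + 1 / b) :=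
          mul_le_mul_of_nonneg_left q5 (sq_nonneg _)
      _ = L ^ 2 / a + L ^ 2 / b := by ring
      _ ≤ _ := q4
  have q6 := mul_le_mul_of_nonneg_left q3 (by linarith : 0 ≤ sg D.q / 2)
  have q7 : sg D.q / 2 * (((g m - g s : ℤ) : ℝ) ^ 2 / a + ((g t - g m : ℤ) : ℝ) ^ 2 / b) =
      sg D.q / 2 * ((g m - g s : ℤ) : ℝ) ^ 2 / a + sg D.q / 2 * ((g t - g m : ℤ) : ℝ) ^ 2 / b := by
    ring
  rw [q7] at q6
  rw [hts]
  linarith

end Pool.Agent.H56.INS
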