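import Pool.Agent.H56.INS.Hit

/-!
# Modules PCU, PSM, PLO: probability estimates
-/

set_option autoImplicit false

open MeasureTheory ProbabilityTheory
open scoped ENNReal

namespace Pool.Agent.H56.INS

open Pool.Agent.H95.INS Pool.Agent.H99.NS Pool.Agent.H22.LPP

theorem pow64 {k : ℕ} (hk : 1 ≤ k) : (64 : ℝ) ^ k = 64 * 64 ^ (k - 1) := by
  obtain ⟨j, rfl⟩ : ∃ j, k = j + 1 := ⟨k - 1, by omega⟩
  rw [Nat.add_sub_cancel, pow_succ]
  ring

theorem pf_PCU : T_PCU := by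
  intro q hq0 hq1 hA
  obtain ⟨C, c, hC, hc, h⟩ := hA
  refine ⟨16 * C, c, by positivity, hc, fun k A X K B H Y hk hA1 hY => ?_⟩
  have h1 := h k (16 * A) Y hk (by omega) hY
  refine (measure_mono ?_).trans (h1.trans (le_of_eq ?_))
  · intro ω hω
    rw [Set.mem_ofPred_eq] at hω ⊢
    unfold CA at hω
    push Not at hω
    obtain ⟨s, t, g, h2, h3, h4, h5, h6, h7⟩ := hω
    refine ⟨s, t, g, ?_, h3, ?_, h5, h6, ?_⟩
    · change -(4 * (8 * 64 ^ (k - 1))) ≤ s at h2
      omega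
    · change t ≤ 4 * (8 * 64 ^ (k - 1)) at h4
      omega
    · have e1 : 8 * (((8 * 64 ^ (k - 1) : ℤ)) : ℝ) / 50 = 64 ^ k / 50 := by
        rw [pow64 hk]
        push_cast
        ring
      change sp q (8 * (((8 * 64 ^ (k - 1) : ℤ)) : ℝ) / 50) s t g + Y * 4 ^ k < _ at h7
      rw [e1] at h7
      exact h7
  · congr 1
    push_cast
    ring

theorem pf_PSM : T_PSM := by
  intro q hq0 hq1 hI
  obtain ⟨C, c, hC, hc, h⟩ := hI
  refine ⟨768 * C, c / 1000, by positivity, by positivity, fun A hA => ?_⟩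
  obtain ⟨k0, hk0, h1⟩ := h (16 * A) (by omega)
  refine ⟨k0, hk0, fun k X K B H Y hk hH => ?_⟩
  have key : ∀ s t : ℤ, (t - s = 8 * 64 ^ (k - 1) ∨ t - s = 32 * 64 ^ (k - 1)) →
      PE q {ω | ¬ UB (dat q k A K B H Y X) ω s t (1 / 1000)} ≤
        ENNReal.ofReal (C * (16 * A) ^ 2 * Real.exp (-(c / 1000 * H))) := by
    intro s t hst
    have h2 := h1 k hk s t hst (H / 1000) (by positivity)
    refine (measure_mono ?_).trans (h2.trans (le_of_eq ?_))
    · intro ω hω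
      rw [Set.mem_ofPred_eq] at hω ⊢
      unfold UB at hω
      push Not at hω
      obtain ⟨g, h3, h4, h5⟩ := hω
      have hst' : s ≤ t := by
        have : (0:ℤ) < 64 ^ (k - 1) := by positivity
        rcases hst with h | h <;> omega
      have hconn : Conn (s, g s) (t, g t) g := ⟨h3, rfl, rfl⟩
      refine ⟨g s, g t, (h4 s le_rfl hst').le, (h4 t hst' le_rfl).le, hconn.reach hst', ?_⟩
      have h6 := le_T ω (u := (s, g s)) (v := (t, g t)) hst' hconn
      refine lt_of_lt_of_le ?_ h6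
      unfold Exc at h5
      change 1 / 1000 * H * 4 ^ k < wt ω s t g - par q (s, g s) (t, g t) at h5
      change _ < wt ω s t g
      linarith
    · congr 1
      push_cast
      rw [show c / 1000 * H = c * (H / 1000) by ring]
  have hsub : {ω | ¬ Sm (dat q k A K B H Y X) ω} ⊆
      {ω | ¬ UB (dat q k A K B H Y X) ω (-(4 * (dat q k A K B H Y X).n))
          (-(3 * (dat q k A K B H Y X).n)) (1 / 1000)} ∪
      ({ω | ¬ UB (dat q k A K B H Y X) ω (-(2 * (dat q k A K B H Y X).n))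
          (2 * (dat q k A K B H Y X).n) (1 / 1000)} ∪
      {ω | ¬ UB (dat q k A K B H Y X) ω (3 * (dat q k A K B H Y X).n)
          (4 * (dat q k A K B H Y X).n) (1 / 1000)}) := by
    intro ω hω
    by_contra hcon
    rw [Set.mem_union, Set.mem_union] at hcon
    push Not at hcon
    obtain ⟨h2, h3, h4⟩ := hcon
    rw [Set.mem_ofPred_eq, not_not] at h2 h3 h4
    exact hω ⟨h2, h3, h4⟩
  refine (measure_mono hsub).trans ((measure_union_le _ _).trans ?_)
  refine (add_le_add le_rfl (measure_union_le _ _)).trans ?_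
  have hn : (dat q k A K B H Y X).n = 8 * 64 ^ (k - 1) := rfl
  refine (add_le_add (key _ _ (Or.inl (by rw [hn]; ring))) (add_le_add
    (key _ _ (Or.inr (by rw [hn]; ring))) (key _ _ (Or.inl (by rw [hn]; ring))))).trans
    (le_of_eq ?_)
  have h0 : 0 ≤ C * (16 * (A : ℝ)) ^ 2 * Real.exp (-(c / 1000 * H)) := by positivity
  rw [← ENNReal.ofReal_add h0 h0, ← ENNReal.ofReal_add h0 (by linarith)]
  congr 1
  ring

theorem pf_PLO (h_CNX : T_CNX) (h_PCU : T_PCU) : T_PLO := by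
  intro q hq0 hq1 hA hB
  obtain ⟨C1, c1, hC1, hc1, h1⟩ := h_PCU q hq0 hq1 hA
  obtain ⟨C2, c2, hC2, hc2, k0, hk0, h2⟩ := hB
  refine ⟨C1 + 3 * C2, min c1 (c2 / 1000), by positivity, lt_min hc1 (by positivity),
    max k0 2, by omega, fun k A X K B H Y hk hA40 hY hOk => ?_⟩
  have hH : 0 < H := by
    have h3 := hOk.c1
    have h4 := hOk.K0
    have h5 := hOk.B0
    have h6 := sg_pos hq0 hq1
    change 70 * sg q + 3 * K * (1 + B) + sg q * B ^ 2 ≤ H / 1000 at h3
    change 0 ≤ K at h4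
    change 0 ≤ B at h5
    have h7 : 0 ≤ 3 * K * (1 + B) := by positivity
    have h8 : 0 ≤ sg q * B ^ 2 := by positivity
    linarith
  have key : ∀ s t : ℤ, (t - s = 8 * 64 ^ (k - 1) ∨ t - s = 32 * 64 ^ (k - 1)) →
      PE q {ω | ∃ x y : ℤ, |x| ≤ 16 ^ k ∧ |y| ≤ 16 ^ k ∧ Reach (s, x) (t, y) ∧
        T ω (s, x) (t, y) < par q (s, x) (t, y) - H / 1000 * 4 ^ k} ≤
        ENNReal.ofReal (C2 * Real.exp (-(c2 / 1000 * H))) := by
    intro s t hst
    refine (h2 k (by omega) s t (by rcases hst with h | h <;> simp [h]) (H / 1000)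
      (by positivity)).trans (le_of_eq ?_)
    rw [show c2 / 1000 * H = c2 * (H / 1000) by ring]
  have hn : (dat q k A K B H Y X).n = 8 * 64 ^ (k - 1) := rfl
  have hw : (dat q k A K B H Y X).w = 16 ^ k := rfl
  set E : ℤ → ℤ → Set Env := fun s t => {ω | ∃ x y : ℤ, |x| ≤ 16 ^ k ∧ |y| ≤ 16 ^ k ∧
    Reach (s, x) (t, y) ∧ T ω (s, x) (t, y) < par q (s, x) (t, y) - H / 1000 * 4 ^ k} with hE
  have hsub : {ω | ¬ LO (dat q k A K B H Y X) ω} ⊆ {ω | ¬ CA (dat q k A K B H Y X) ω} ∪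
      (E (-(4 * (8 * 64 ^ (k - 1)))) (-(3 * (8 * 64 ^ (k - 1)))) ∪
      (E (-(2 * (8 * 64 ^ (k - 1)))) (2 * (8 * 64 ^ (k - 1))) ∪
      E (3 * (8 * 64 ^ (k - 1))) (4 * (8 * 64 ^ (k - 1))))) := by
    intro ω hω
    by_contra hcon
    rw [Set.mem_union, Set.mem_union, Set.mem_union] at hcon
    push Not at hcon
    obtain ⟨h3, h4, h5, h6⟩ := hcon
    rw [Set.mem_ofPred_eq, not_not] at h3
    refine hω (h_CNX _ ω hOk hA40 h3 ?_ ?_)
    · intro s t x y hst hx hy hr
      by_contra hlt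
      push Not at hlt
      change _ < par q (s, x) (t, y) - H * 4 ^ k / 1000 at hlt
      rw [show H * (4:ℝ) ^ k / 1000 = H / 1000 * 4 ^ k by ring] at hlt
      rw [hn] at hst
      rw [hw] at hx hy
      rcases hst with ⟨rfl, rfl⟩ | ⟨rfl, rfl⟩ | ⟨rfl, rfl⟩
      · exact h4 ⟨x, y, hx, hy, hr, hlt⟩
      · exact h5 ⟨x, y, hx, hy, hr, hlt⟩
      · exact h6 ⟨x, y, hx, hy, hr, hlt⟩
    · rw [hn, hw]
      obtain ⟨j, rfl⟩ : ∃ j, k = j + 2 := ⟨k - 2, by omega⟩
      rw [show j + 2 - 1 = j + 1 by omega]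
      have h7 : (16:ℤ) ^ j ≤ 64 ^ j := pow_le_pow_left₀ (by norm_num) (by norm_num) j
      have h8 : (16:ℤ) ^ (j + 2) = 256 * 16 ^ j := by ring
      have h9 : (64:ℤ) ^ (j + 1) = 64 * 64 ^ j := by ring
      rw [h8, h9]
      omega
  refine (measure_mono hsub).trans ((measure_union_le _ _).trans ?_)
  refine (add_le_add le_rfl ((measure_union_le _ _).trans
    (add_le_add le_rfl (measure_union_le _ _)))).trans ?_
  refine (add_le_add (h1 k A X K B H Y (by omega) (by omega) hY)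
    (add_le_add (key _ _ (Or.inl (by ring))) (add_le_add
    (key _ _ (Or.inr (by ring))) (key _ _ (Or.inl (by ring)))))).trans ?_
  have hA0 : (0:ℝ) < A := by exact_mod_cast (by omega : (0:ℤ) < A)
  have g0 : 0 ≤ C1 * A * Real.exp (-(c1 * Y)) := by positivity
  have g1 : 0 ≤ C2 * Real.exp (-(c2 / 1000 * H)) := by positivity
  rw [← ENNReal.ofReal_add g1 g1, ← ENNReal.ofReal_add g1 (by linarith),
    ← ENNReal.ofReal_add g0 (by linarith)]
  refine ENNReal.ofReal_le_ofReal ?_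
  have e1 : Real.exp (-(c1 * Y)) ≤ Real.exp (-(min c1 (c2 / 1000) * Y)) := by
    refine Real.exp_le_exp.2 (neg_le_neg ?_)
    exact mul_le_mul_of_nonneg_right (min_le_left _ _) (by linarith)
  have e2 : Real.exp (-(c2 / 1000 * H)) ≤ Real.exp (-(min c1 (c2 / 1000) * H)) := by
    refine Real.exp_le_exp.2 (neg_le_neg ?_)
    exact mul_le_mul_of_nonneg_right (min_le_right _ _) hH.le
  have e3 : C1 * A * Real.exp (-(c1 * Y)) ≤
      (C1 + 3 * C2) * A * Real.exp (-(min c1 (c2 / 1000) * Y)) := by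
    refine mul_le_mul (mul_le_mul_of_nonneg_right (by linarith) hA0.le) e1 (by positivity)
      (by positivity)
  have e4 : C2 * Real.exp (-(c2 / 1000 * H)) + (C2 * Real.exp (-(c2 / 1000 * H)) +
      C2 * Real.exp (-(c2 / 1000 * H))) ≤
      (C1 + 3 * C2) * Real.exp (-(min c1 (c2 / 1000) * H)) := by
    have e5 : 3 * C2 * Real.exp (-(c2 / 1000 * H)) ≤
        (C1 + 3 * C2) * Real.exp (-(min c1 (c2 / 1000) * H)) :=
      mul_le_mul (by linarith) e2 (by positivity) (by positivity)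
    linarith
  linarith

end Pool.Agent.H56.INS
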